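import Mathlib
import Pool.Agent.H875R3.GurLower

/-!
Every strong Gurarii space (Banach space of universal disposition for finite dimensional spaces)
has density at least the continuum. In particular, if the continuum hypothesis fails, there is no
strong Gurarii space of density `ℵ₁`.
-/

set_option autoImplicit false

open Set Cardinal

universe u

namespace Pool.Agent.Results.MP_47ceec_an.DensityContinuum

/-- A real normed space `X` is a strong Gurarii space: for every finite dimensional real normed
space `F`, every linear subspace `E` of `F` and every isometric linear embedding `f : E → X` there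
is an isometric linear embedding `g : F → X` which extends `f`. -/
def StrongGurarii (X : Type u) [NormedAddCommGroup X] [NormedSpace ℝ X] : Prop :=
  ∀ (F : Type) [NormedAddCommGroup F] [NormedSpace ℝ F] [FiniteDimensional ℝ F]
    (E : Submodule ℝ F) (f : E →ₗᵢ[ℝ] X), ∃ g : F →ₗᵢ[ℝ] X, ∀ x : E, g (x : F) = f x

/-- The density of a topological space: the least cardinality of a dense subset. -/
noncomputable def density (X : Type u) [TopologicalSpace X] : Cardinal.{u} :=
  sInf {κ : Cardinal.{u} | ∃ D : Set X, Dense D ∧ #D = κ}

/-- Every strong Gurarii space has density at least the continuum; so there is none of density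
`ℵ₁` unless the continuum hypothesis holds. -/
theorem result :
    (∀ (X : Type u) [NormedAddCommGroup X] [NormedSpace ℝ X] [CompleteSpace X],
      StrongGurarii X → Cardinal.continuum.{u} ≤ density X) ∧
    (Cardinal.aleph.{u} 1 < Cardinal.continuum.{u} →
      ¬ ∃ (X : Type u) (_ : NormedAddCommGroup X) (_ : NormedSpace ℝ X) (_ : CompleteSpace X),
        StrongGurarii X ∧ density X = Cardinal.aleph.{u} 1) := by
  have main : ∀ (X : Type u) [NormedAddCommGroup X] [NormedSpace ℝ X] [CompleteSpace X],
      StrongGurarii X → Cardinal.continuum.{u} ≤ density X := by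
    intro X _ _ _ hX
    apply le_csInf
    · exact ⟨_, Set.univ, dense_univ, rfl⟩
    · rintro κ ⟨D, hD, rfl⟩
      exact Pool.Agent.H875R3.SG.StrongGurarii.continuum_le (X := X) hX D hD
  refine ⟨main, ?_⟩
  rintro h ⟨X, i1, i2, i3, hX, hd⟩
  exact absurd (main X hX) (by rw [hd]; exact not_le.2 h)

end Pool.Agent.Results.MP_47ceec_an.DensityContinuum
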